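import Mathlib
import Pool.Agent.H305R2.OC.KFold

set_option autoImplicit false

/-!
# Every proper multiple of the symmetric digraph decomposes into long directed cycles

Let `G` be a finite simple graph without cut edge and let `k ≥ 2`.  Then there is a list of
directed cycles of length at least three in which every arc of the symmetric digraph `D(G)` is
used exactly `k` times.  The oriented cycle double cover conjecture is the same statement for
`k = 1`.
-/

open scoped Classical

namespace Pool.Agent.Results.MP_781dd6_co.EveryMultiple

theorem result (V : Type) [Fintype V] (G : SimpleGraph V)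
    (hG : ∀ u v : V, G.Adj u v → (G.deleteEdges {s(u, v)}).Reachable u v) (k : ℕ) (hk : 2 ≤ k) :
    ∃ C : List (Σ v : V, G.Walk v v),
      (∀ c ∈ C, c.2.IsCycle) ∧
      ∀ u v : V, G.Adj u v →
        (C.map (fun c => (c.2.darts.filter (fun d => decide (d.toProd = (u, v)))).length)).sum
          = k := by
  obtain ⟨C, h1, h2⟩ := Pool.Agent.H305R2.OC.dec_all G hG k hk
  exact ⟨C, h1, h2⟩

end Pool.Agent.Results.MP_781dd6_co.EveryMultiple
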